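import Pool.Agent.Helper52.SX.Goals3

/-!
# SX-FNF: the tuple of a circuit is normalized
-/

namespace Pool.Agent.Helper73.SX

open Pool.Agent.Helper52.SX
open Pool.Agent.Helper78.JT (Clause CList Circuit Holds out cnt size Narrow lsize)

theorem len_le_lsize (f : CList) : f.length ≤ lsize f := by
  unfold lsize
  induction f with
  | nil => simp
  | cons e f ih =>
    simp only [List.map_cons, List.sum_cons, List.length_cons]
    omega

theorem len_le_size {z : Circuit} {f : CList} (h : f ∈ z.2.1) : f.length ≤ size z := by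
  have h1 : 1 + lsize f ≤ (z.2.1.map fun f => 1 + lsize f).sum :=
    List.single_le_sum (by simp) _ (List.mem_map_of_mem h)
  have h2 := len_le_lsize f
  unfold size
  omega

theorem fnf (hV : ValStmt) : FnfStmt := by
  intro z D m
  refine ⟨?_, ?_⟩
  · intro F hF
    simp only [cnv, List.mem_append, List.mem_map] at hF
    rcases hF with ⟨f, hf, rfl⟩ | ⟨f, hf, rfl⟩
    · obtain ⟨h1, _, h3, _, _⟩ := hV z.1 D f
      exact ⟨h1, h3.trans ((Nat.mul_le_mul_right _ (len_le_size hf)).trans (Nat.le_succ _))⟩
    · obtain ⟨_, h2, _, h4, _⟩ := hV z.1 D f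
      exact ⟨h2, h4.trans (Nat.succ_le_succ (Nat.mul_le_mul_right _ (len_le_size hf)))⟩
  · simp only [cnv, List.length_append, List.length_map]
    omega

end Pool.Agent.Helper73.SX
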