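import Pool.Agent.Helper52.SX.Goals3

/-!
# SX-ERR: the numbers of EXH
-/

namespace Pool.Agent.Helper73.SX

open Pool.Agent.Helper52.SX
open Pool.Agent.Helper65.CS Pool.Agent.Helper78.DT Pool.Agent.Helper51.ZP

theorem base_half {k : ℕ} (hk : 2 ≤ k) :
    (1 - 1 / ((k : ℝ) * 2 ^ k)) ^ (k * 2 ^ k) ≤ 1 / 2 := by
  have h0 : 1 ≤ k * 2 ^ k := Nat.one_le_iff_ne_zero.2 (by positivity)
  have h1 : (1 : ℝ) ≤ ((k * 2 ^ k : ℕ) : ℝ) := by exact_mod_cast h0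
  have h2 := Real.one_sub_div_pow_le_exp_neg h1
  have h3 : ((k * 2 ^ k : ℕ) : ℝ) = (k : ℝ) * 2 ^ k := by push_cast; ring
  rw [h3] at h2
  refine h2.trans ?_
  rw [Real.exp_neg, one_div]
  apply inv_anti₀ (by norm_num)
  have := Real.add_one_le_exp (1 : ℝ)
  linarith

theorem err : ErrStmt := by
  intro c k hk
  refine ⟨k * 2 ^ k * (2 * k + c + 4), fun N => ?_⟩
  set L := lg N with hL
  have hLdef : L = Nat.log 2 N + 2 := rfl
  have hN : (N : ℝ) ≤ 2 ^ L := by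
    have : N < 2 ^ (Nat.log 2 N + 1) := Nat.lt_pow_succ_log_self (by norm_num) N
    have h2 : N ≤ 2 ^ L := this.le.trans (Nat.pow_le_pow_right (by norm_num) (by omega))
    exact_mod_cast h2
  have h3 : (3 : ℝ) ^ (k * (Nat.log 2 N + 1)) ≤ 2 ^ (2 * k * L) := by
    calc (3 : ℝ) ^ (k * (Nat.log 2 N + 1)) ≤ 4 ^ (k * (Nat.log 2 N + 1)) := by gcongr; norm_num
      _ ≤ 4 ^ (k * L) := pow_le_pow_right₀ (by norm_num) (Nat.mul_le_mul_left _ (by omega))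
      _ = 2 ^ (2 * k * L) := by
        rw [show (4 : ℝ) = 2 ^ 2 by norm_num, ← pow_mul]
        congr 1; ring
  have hA0 : 0 ≤ 1 - 1 / ((k : ℝ) * 2 ^ k) := by
    have h0 : 1 ≤ k * 2 ^ k := Nat.one_le_iff_ne_zero.2 (by positivity)
    have h1 : (1 : ℝ) ≤ (k : ℝ) * 2 ^ k := by exact_mod_cast h0
    have := (div_le_one (by linarith : (0 : ℝ) < (k : ℝ) * 2 ^ k)).2 h1
    linarith
  have h4 : (1 - 1 / ((k : ℝ) * 2 ^ k)) ^ (k * 2 ^ k * (2 * k + c + 4) * L) ≤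
      (1 / 2) ^ ((2 * k + c + 4) * L) := by
    rw [mul_assoc, pow_mul]
    exact pow_le_pow_left₀ (pow_nonneg hA0 _) (base_half hk) _
  have hL1 : 1 ≤ L := by omega
  have hLp : (0 : ℝ) < L := by exact_mod_cast hL1
  have h5 : 4 * (L : ℝ) ^ c ≤ 2 ^ ((c + 2) * L) := by
    have e1 : (L : ℝ) ≤ 2 ^ L := by exact_mod_cast (Nat.lt_two_pow_self (n := L)).le
    have e2 : (L : ℝ) ^ c ≤ (2 ^ L) ^ c := pow_le_pow_left₀ hLp.le e1 c
    have e3 : (4 : ℝ) ≤ 2 ^ (2 * L) := by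
      calc (4 : ℝ) = 2 ^ 2 := by norm_num
        _ ≤ 2 ^ (2 * L) := pow_le_pow_right₀ (by norm_num) (by omega)
    calc 4 * (L : ℝ) ^ c ≤ 2 ^ (2 * L) * (2 ^ L) ^ c := mul_le_mul e3 e2 (by positivity) (by positivity)
      _ = 2 ^ ((c + 2) * L) := by rw [← pow_mul, ← pow_add]; congr 1; ring
  have h6 : (1 / 2 : ℝ) ^ ((2 * k + c + 4) * L) * 2 ^ ((2 * k + 2) * L) * 2 ^ ((c + 2) * L) = 1 := by
    rw [mul_assoc, ← pow_add, one_div, inv_pow]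
    rw [show (2 * k + 2) * L + (c + 2) * L = (2 * k + c + 4) * L by ring]
    exact inv_mul_cancel₀ (by positivity)
  rw [le_div_iff₀ (by positivity)]
  calc (N : ℝ) * (2 * 3 ^ (k * (Nat.log 2 N + 1)) *
        (1 - 1 / ((k : ℝ) * 2 ^ k)) ^ (k * 2 ^ k * (2 * k + c + 4) * L)) * (4 * (L : ℝ) ^ c)
      ≤ (2 ^ L * (2 ^ L * 2 ^ (2 * k * L) * (1 / 2) ^ ((2 * k + c + 4) * L))) *
        2 ^ ((c + 2) * L) := by
        have e2 : (2 : ℝ) ≤ 2 ^ L := by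
          calc (2 : ℝ) = 2 ^ 1 := by norm_num
            _ ≤ 2 ^ L := pow_le_pow_right₀ (by norm_num) hL1
        have hp : 0 ≤ (1 - 1 / ((k : ℝ) * 2 ^ k)) ^ (k * 2 ^ k * (2 * k + c + 4) * L) :=
          pow_nonneg hA0 _
        gcongr
    _ = (1 / 2) ^ ((2 * k + c + 4) * L) * 2 ^ ((2 * k + 2) * L) * 2 ^ ((c + 2) * L) := by
        rw [show (2 : ℝ) ^ ((2 * k + 2) * L) = 2 ^ L * 2 ^ L * 2 ^ (2 * k * L) by
          rw [← pow_add, ← pow_add]; congr 1; ring]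
        ring
    _ = 1 := h6

end Pool.Agent.Helper73.SX
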